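import Pool.Agent.MP_e46b50_co.Mg.Lg_PartC

set_option autoImplicit false

namespace Pool.Agent.Results.MP_e46b50_co.Large

open Pool.Agent.MP_e46b50_co

/-- `G.support` is the set of non-isolated vertices of `G`. -/
theorem result : ∃ n₀ : ℕ, ∀ (V : Type) [Fintype V] [DecidableEq V] (G : SimpleGraph V),
    n₀ ≤ G.support.ncard → ∀ l : ℕ, 3 ≤ l → l ≤ Nat.card {D : Finset V // Dominating G D} →
      ∃ D, ∃ p : (tars G).Walk D D, p.IsCycle ∧ p.length = l :=
  H93.Lg.large

end Pool.Agent.Results.MP_e46b50_co.Large
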