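import Pool.Agent.MP_e46b50_co.H93.Deg

set_option autoImplicit false

namespace Pool.Agent.Results.MP_e46b50_co.MinDegree

open Pool.Agent.MP_e46b50_co

/-- The TARS-graph of a graph of logarithmic minimum degree is pancyclic. -/
theorem result {V : Type} [Fintype V] [DecidableEq V] (G : SimpleGraph V) [DecidableRel G.Adj]
    (h : 33 * Nat.clog 2 (Fintype.card V) + 134 ≤ G.minDegree) :
    ∀ l, 3 ≤ l → l ≤ Nat.card {D : Finset V // Dominating G D} →
      ∃ D, ∃ p : (tars G).Walk D D, p.IsCycle ∧ p.length = l :=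
  pan_tars (H93.pan_minDegree G h)

end Pool.Agent.Results.MP_e46b50_co.MinDegree
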