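import Pool.Agent.MP_e46b50_co.Mg.Main

set_option autoImplicit false

namespace Pool.Agent.Results.MP_e46b50_co.Pancyclic

open Pool.Agent.MP_e46b50_co

/-- The vertices are split into stars numbered by `r`, the star number `k` having centre `c k`. -/
theorem result {V : Type} [Fintype V] [DecidableEq V] (G : SimpleGraph V) (r : V → ℕ) (c : ℕ → V)
    (h0 : ∀ v, r (c (r v)) = r v)
    (h1 : ∀ v, v ≠ c (r v) → G.Adj (c (r v)) v)
    (h2 : ∀ x v, c (r x) = x → G.Adj x v → ∃ w, G.Adj x w ∧ r w ≤ r x)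
    (h3 : ∀ x v, c (r x) = x → G.Adj x v → r x < r v → ∃ w, w ≠ x ∧ G.Adj v w ∧ r w ≤ r x)
    (h4 : ∀ z f g, r f = r g → r f < r z → f ≠ g → G.Adj z f → G.Adj z g → ¬ G.Adj z (c (r f)) →
      (∀ w, G.Adj z w → r f ≤ r w) → G.Adj f g) :
    ∀ l, 3 ≤ l → l ≤ Nat.card {D : Finset V // Dominating G D} →
      ∃ D, ∃ p : (tars G).Walk D D, p.IsCycle ∧ p.length = l := by
  refine pan_tars ?_
  have := (blocks r c h0 h1 h2 h3 h4 (Finset.univ.sup r + 1) 0 fun v => by
    have := Finset.le_sup (f := r) (Finset.mem_univ v)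
    omega).2 (fun v w h => absurd h (Nat.not_lt_zero _))
  simpa using this

end Pool.Agent.Results.MP_e46b50_co.Pancyclic
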