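import Pool.Agent.MP_e46b50_co.Mg.H93_Sca

set_option autoImplicit false

namespace Pool.Agent.Results.MP_e46b50_co.Scattered

open Pool.Agent.MP_e46b50_co

/-- Many far apart non-isolated vertices of degree at most `k` make the TARS-graph pancyclic. -/
theorem result {V : Type} [Fintype V] [DecidableEq V] (G : SimpleGraph V) [DecidableRel G.Adj]
    (k : ℕ) (C : Finset V) (h1 : ∀ v ∈ C, 1 ≤ G.degree v ∧ G.degree v ≤ k)
    (h2 : ∀ u ∈ C, ∀ v ∈ C, u ≠ v → 7 ≤ G.edist u v)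
    (h3 : (3 * Nat.clog 2 (6 * Fintype.card V) + 2) * (k ^ 2 + 3 * k + 3) ≤ C.card) :
    ∀ l, 3 ≤ l → l ≤ Nat.card {D : Finset V // Dominating G D} →
      ∃ D, ∃ p : (tars G).Walk D D, p.IsCycle ∧ p.length = l :=
  pan_tars (H93.pan_scattered h1 h2 h3)

end Pool.Agent.Results.MP_e46b50_co.Scattered
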